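import Pool.Agent.H8.Rect2

set_option autoImplicit false

open MeasureTheory

namespace Pool.Agent.Results.MP_fbee13_lc.Rectangles

/-- Q1 is equivalent to the abstract rectangle problem; it holds under CH and fails if there is a
diffuse probability measure on all subsets of the reals. -/
theorem result :
    ((∀ Z : Set ℝ, (∀ z ∈ Z, -z ∈ Z) →
        @MeasurableSet ℝ
          (MeasurableSpace.generateFrom {S : Set ℝ | ∃ G : AddSubgroup ℝ, (G : Set ℝ) = S}) Z) ↔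
      (∀ R : Set (ℝ × ℝ), @MeasurableSet (ℝ × ℝ)
          (MeasurableSpace.generateFrom {S : Set (ℝ × ℝ) | ∃ A B : Set ℝ, S = A ×ˢ B}) R)) ∧
    (Cardinal.continuum.{0} = Cardinal.aleph 1 →
      ∀ Z : Set ℝ, (∀ z ∈ Z, -z ∈ Z) →
        @MeasurableSet ℝ
          (MeasurableSpace.generateFrom {S : Set ℝ | ∃ G : AddSubgroup ℝ, (G : Set ℝ) = S}) Z) ∧
    ((∃ μ : @Measure ℝ ⊤, μ Set.univ = 1 ∧ ∀ x : ℝ, μ {x} = 0) →
      ¬ ∀ Z : Set ℝ, (∀ z ∈ Z, -z ∈ Z) →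
        @MeasurableSet ℝ
          (MeasurableSpace.generateFrom {S : Set ℝ | ∃ G : AddSubgroup ℝ, (G : Set ℝ) = S}) Z) := by
  refine ⟨⟨fun h => Pool.Agent.H8.Rect.rect_iff.1 (Pool.Agent.H8.Rect.rect_of_sym h),
    fun h => Pool.Agent.H8.Rect.sym_of_rect (Pool.Agent.H8.Rect.rect_iff.2 h)⟩,
    fun h => Pool.Agent.H8.Rect.sym_of_rect (Pool.Agent.H8.Rect.rect_of_CH h), ?_⟩
  rintro ⟨μ, h1, h0⟩ h
  have h2 := Pool.Agent.H8.Rect.rect_of_sym h
  exact @Pool.Agent.H8.Rect.not_rect_aux ℝ ⊤ (fun _ => MeasurableSpace.measurableSet_top) μ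
    (@IsProbabilityMeasure.mk ℝ ⊤ μ h1) h0 h2

end Pool.Agent.Results.MP_fbee13_lc.Rectangles
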